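import Mathlib

/-!
# MP_e732b6_an : quasi-disjointness from ergodic systems versus from itself
-/

set_option autoImplicit false

open MeasureTheory Filter Topology ProbabilityTheory
open scoped RealInnerProductSpace

namespace Pool.Agent.Results.MP_e732b6_an.QuasiDisjoint

/-- A `G` system: a compact metrizable space with an action of `G` by homeomorphisms and an
invariant Borel probability measure. -/
structure GSys (G : Type) [Group G] where
  /-- the underlying space -/
  X : Type
  [top : TopologicalSpace X]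
  [cpt : CompactSpace X]
  [met : TopologicalSpace.MetrizableSpace X]
  [ms : MeasurableSpace X]
  [bor : BorelSpace X]
  [act : MulAction G X]
  [cont : ContinuousConstSMul G X]
  /-- the invariant measure -/
  μ : Measure X
  [prob : IsProbabilityMeasure μ]
  [inv : SMulInvariantMeasure G X μ]

attribute [instance] GSys.top GSys.cpt GSys.met GSys.ms GSys.bor GSys.act GSys.cont GSys.prob
  GSys.inv

variable {G : Type} [Group G]

/-- ergodicity -/
def GSys.Ergodic (S : GSys G) : Prop :=
  ∀ A : Set S.X, MeasurableSet A → (∀ γ : G, (fun x => γ • x) ⁻¹' A = A) →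
    S.μ A = 0 ∨ S.μ A = 1

section Statement

/-- Real `L²(X, μ)`. -/
abbrev L2 {X : Type} [MeasurableSpace X] (μ : Measure X) : Type := Lp ℝ 2 μ

/-- A representative function of an element of `Lᵖ(X, μ; E)`. -/
noncomputable def fn {X E : Type} [MeasurableSpace X] [NormedAddCommGroup E] {p : ENNReal}
    {μ : Measure X} (f : Lp E p μ) : X → E := f

/-- `A` has compact closure. -/
def CompactClosure {H : Type} [TopologicalSpace H] (A : Set H) : Prop := IsCompact (closure A)

/-- The closed linear span of `A`. -/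
def closedSpan {H : Type} [NormedAddCommGroup H] [NormedSpace ℝ H] (A : Set H) : Set H :=
  closure (Submodule.span ℝ A : Set H)

/-- `{f ∘ T^γ : γ ∈ G}`, as a subset of `L²(X, μ)` -/
def orbit (S : GSys G) (f : L2 S.μ) : Set (L2 S.μ) :=
  {g | ∃ γ : G, fn g =ᵐ[S.μ] fun x => fn f (γ • x)}

/-- The closed subspace of `L²(X, μ)` spanned by the `f` for which `{f ∘ T^γ : γ ∈ G}` has compact
closure: `L²` of the Kronecker factor. -/
def Kronecker (S : GSys G) : Set (L2 S.μ) :=
  closedSpan {f | CompactClosure (orbit S f)}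

/-- `∫ f(x) g(y) dl = ∫ f dμ ∫ g dν` -/
def Uncorrelated {X Y : Type} [MeasurableSpace X] [MeasurableSpace Y] (μ : Measure X)
    (ν : Measure Y) (l : Measure (X × Y)) (f : X → ℝ) (g : Y → ℝ) : Prop :=
  ∫ p, f p.1 * g p.2 ∂l = (∫ x, f x ∂μ) * ∫ y, g y ∂ν

/-- `l` is a measure on `X × Y` with marginals `μ` and `ν` that is invariant under all the maps
`a γ × b γ`. -/
def Joins {I X Y : Type} [MeasurableSpace X] [MeasurableSpace Y] (a : I → X → X) (b : I → Y → Y)
    (μ : Measure X) (ν : Measure Y) (l : Measure (X × Y)) : Prop :=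
  l.map Prod.fst = μ ∧ l.map Prod.snd = ν ∧ ∀ γ, l.map (fun p => (a γ p.1, b γ p.2)) = l

/-- `l` is a joining of the `G` systems `S` and `R`. -/
def Joining (S R : GSys G) (l : Measure (S.X × R.X)) : Prop :=
  Joins (fun (γ : G) (x : S.X) => γ • x) (fun (γ : G) (y : R.X) => γ • y) S.μ R.μ l

/-- The image of `l` under the product of the Kronecker factor maps is the product measure. -/
def ProductOnKronecker (S R : GSys G) (l : Measure (S.X × R.X)) : Prop :=
  ∀ f ∈ Kronecker S, ∀ g ∈ Kronecker R, Uncorrelated S.μ R.μ l (fn f) (fn g)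

/-- `S` and `R` are quasi-disjoint: the product measure is the only joining whose image under the
product of the Kronecker factor maps is the product measure. -/
def QuasiDisjoint (S R : GSys G) : Prop :=
  ∀ l : Measure (S.X × R.X), Joining S R l → ProductOnKronecker S R l → l = S.μ.prod R.μ

end Statement

/-- The operator `f ↦ f ∘ T^γ` on `L²(X, μ)`. -/
noncomputable def koop (S : GSys G) (γ : G) : Lp ℝ 2 S.μ →ₗᵢ[ℝ] Lp ℝ 2 S.μ :=
  Lp.compMeasurePreservingₗᵢ ℝ (fun x : S.X => γ • x) (measurePreserving_smul γ S.μ)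

/-- `{f ∘ T^γ : γ ∈ G}` has compact closure in `L²`. -/
def IsAP (S : GSys G) (f : Lp ℝ 2 S.μ) : Prop :=
  IsCompact (closure (Set.range fun γ : G => koop S γ f))

/-- The closed subspace of `L²` spanned by the vectors whose orbit has compact closure, that is
`L²` of the Kronecker factor. -/
noncomputable def kron (S : GSys G) : Submodule ℝ (Lp ℝ 2 S.μ) :=
  (Submodule.span ℝ {f | IsAP S f}).topologicalClosure

/-- `l` is a joining of `S` and `R`. -/
structure IsJoining (S R : GSys G) (l : Measure (S.X × R.X)) : Prop where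
  fst : l.map Prod.fst = S.μ
  snd : l.map Prod.snd = R.μ
  inv : ∀ γ : G, l.map (fun p => (γ • p.1, γ • p.2)) = l

/-- The image of `l` under the product of the Kronecker factor maps is the product measure. -/
def KronProd (S R : GSys G) (l : Measure (S.X × R.X)) : Prop :=
  ∀ f ∈ kron S, ∀ g ∈ kron R,
    ∫ p, f p.1 * g p.2 ∂l = (∫ x, f x ∂S.μ) * ∫ y, g y ∂(R.μ)

/-- `S` and `R` are quasi-disjoint. -/
def QD (S R : GSys G) : Prop :=
  ∀ l : Measure (S.X × R.X), IsJoining S R l → KronProd S R l → l = S.μ.prod R.μ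

section Basic

variable {S R : GSys G} {l : Measure (S.X × R.X)}

instance (S : GSys G) : SecondCountableTopology S.X := by
  let := TopologicalSpace.metrizableSpaceMetric S.X
  infer_instance

instance (S : GSys G) : PolishSpace S.X := by
  let := TopologicalSpace.metrizableSpaceMetric S.X
  infer_instance

instance (S : GSys G) : StandardBorelSpace S.X := inferInstance

instance (S : GSys G) : Nonempty S.X := nonempty_of_isProbabilityMeasure S.μ

lemma IsJoining.mpf (h : IsJoining S R l) : MeasurePreserving Prod.fst l S.μ :=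
  ⟨measurable_fst, h.fst⟩

lemma IsJoining.mps (h : IsJoining S R l) : MeasurePreserving Prod.snd l R.μ :=
  ⟨measurable_snd, h.snd⟩

lemma measurable_diag (S R : GSys G) (γ : G) :
    Measurable (fun p : S.X × R.X => (γ • p.1, γ • p.2)) :=
  (measurable_fst.const_smul γ).prodMk (measurable_snd.const_smul γ)

lemma IsJoining.mpi (h : IsJoining S R l) (γ : G) :
    MeasurePreserving (fun p : S.X × R.X => (γ • p.1, γ • p.2)) l l :=
  ⟨measurable_diag S R γ, h.inv γ⟩

lemma IsJoining.prob (h : IsJoining S R l) : IsProbabilityMeasure l := by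
  refine ⟨?_⟩
  have := congrArg (fun m => m Set.univ) h.fst
  simpa [Measure.map_apply measurable_fst] using this

lemma IsJoining.swap (h : IsJoining S R l) : IsJoining R S (l.map Prod.swap) := by
  refine ⟨?_, ?_, fun γ => ?_⟩
  · rw [Measure.map_map measurable_fst measurable_swap]
    exact h.snd
  · rw [Measure.map_map measurable_snd measurable_swap]
    exact h.fst
  · rw [Measure.map_map (measurable_diag R S γ) measurable_swap]
    conv_rhs => rw [← h.inv γ, Measure.map_map measurable_swap (measurable_diag S R γ)]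
    rfl

/-- pull back along the first coordinate -/
noncomputable def JF (h : IsJoining S R l) : Lp ℝ 2 S.μ →ₗᵢ[ℝ] Lp ℝ 2 l :=
  Lp.compMeasurePreservingₗᵢ ℝ Prod.fst h.mpf

/-- pull back along the second coordinate -/
noncomputable def JS (h : IsJoining S R l) : Lp ℝ 2 R.μ →ₗᵢ[ℝ] Lp ℝ 2 l :=
  Lp.compMeasurePreservingₗᵢ ℝ Prod.snd h.mps

/-- diagonal Koopman operator -/
noncomputable def UL (h : IsJoining S R l) (γ : G) : Lp ℝ 2 l →ₗᵢ[ℝ] Lp ℝ 2 l :=
  Lp.compMeasurePreservingₗᵢ ℝ (fun p : S.X × R.X => (γ • p.1, γ • p.2)) (h.mpi γ)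

lemma UL_JF (h : IsJoining S R l) (γ : G) (f : Lp ℝ 2 S.μ) :
    UL h γ (JF h f) = JF h (koop S γ f) := by
  change Lp.compMeasurePreserving _ _ (Lp.compMeasurePreserving _ _ f) =
    Lp.compMeasurePreserving _ _ (Lp.compMeasurePreserving _ _ f)
  rw [← Lp.compMeasurePreserving_comp_apply, ← Lp.compMeasurePreserving_comp_apply]
  rfl

lemma UL_JS (h : IsJoining S R l) (γ : G) (g : Lp ℝ 2 R.μ) :
    UL h γ (JS h g) = JS h (koop R γ g) := by
  change Lp.compMeasurePreserving _ _ (Lp.compMeasurePreserving _ _ g) =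
    Lp.compMeasurePreserving _ _ (Lp.compMeasurePreserving _ _ g)
  rw [← Lp.compMeasurePreserving_comp_apply, ← Lp.compMeasurePreserving_comp_apply]
  rfl

lemma bil (h : IsJoining S R l) (f : Lp ℝ 2 S.μ) (g : Lp ℝ 2 R.μ) :
    ⟪JF h f, JS h g⟫ = ∫ p, f p.1 * g p.2 ∂l := by
  rw [L2.inner_def]
  refine integral_congr_ae ?_
  filter_upwards [Lp.coeFn_compMeasurePreserving f h.mpf,
    Lp.coeFn_compMeasurePreserving g h.mps] with p h1 h2
  change ⟪(Lp.compMeasurePreserving Prod.fst h.mpf f) p,
    (Lp.compMeasurePreserving Prod.snd h.mps g) p⟫ = _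
  rw [h1, h2]
  simp [mul_comm]

/-- the conditional expectation operator of a joining -/
noncomputable def Pop (h : IsJoining S R l) : Lp ℝ 2 S.μ →L[ℝ] Lp ℝ 2 R.μ :=
  (ContinuousLinearMap.adjoint (JS h).toContinuousLinearMap) ∘L (JF h).toContinuousLinearMap

lemma Pop_inner (h : IsJoining S R l) (f : Lp ℝ 2 S.μ) (g : Lp ℝ 2 R.μ) :
    ⟪Pop h f, g⟫ = ⟪JF h f, JS h g⟫ := by
  unfold Pop
  rw [ContinuousLinearMap.comp_apply, ContinuousLinearMap.adjoint_inner_left]
  rfl

lemma koop_koop_inv (S : GSys G) (γ : G) (f : Lp ℝ 2 S.μ) :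
    koop S γ (koop S γ⁻¹ f) = f := by
  change Lp.compMeasurePreserving _ _ (Lp.compMeasurePreserving _ _ f) = f
  rw [← Lp.compMeasurePreserving_comp_apply]
  have : (fun x : S.X => γ⁻¹ • x) ∘ (fun x => γ • x) = id := by
    funext x; simp
  ext1
  refine (Lp.coeFn_compMeasurePreserving _ _).trans ?_
  rw [this]
  rfl

lemma Pop_koop (h : IsJoining S R l) (γ : G) (f : Lp ℝ 2 S.μ) :
    Pop h (koop S γ f) = koop R γ (Pop h f) := by
  refine ext_inner_right ℝ fun g => ?_
  rw [Pop_inner, ← UL_JF]
  conv_lhs => rw [← koop_koop_inv R γ g, ← UL_JS, LinearIsometry.inner_map_map, ← Pop_inner]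
  conv_rhs => rw [← koop_koop_inv R γ g, LinearIsometry.inner_map_map]

/-- the constant function one -/
noncomputable def one (S : GSys G) : Lp ℝ 2 S.μ :=
  indicatorConstLp 2 MeasurableSet.univ (measure_ne_top S.μ _) (1 : ℝ)

lemma inner_one (S : GSys G) (f : Lp ℝ 2 S.μ) : ⟪one S, f⟫ = ∫ x, f x ∂S.μ := by
  unfold one
  rw [L2.inner_indicatorConstLp_one, Measure.restrict_univ]

lemma koop_one (S : GSys G) (γ : G) : koop S γ (one S) = one S := by
  unfold koop one
  exact Lp.indicatorConstLp_compMeasurePreserving MeasurableSet.univ _ _ _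

lemma JF_one_eq (h : IsJoining S R l) : JF h (one S) = JS h (one R) := by
  have e1 := Lp.indicatorConstLp_compMeasurePreserving (p := 2) MeasurableSet.univ
    (measure_ne_top S.μ _) (1 : ℝ) h.mpf
  have e2 := Lp.indicatorConstLp_compMeasurePreserving (p := 2) MeasurableSet.univ
    (measure_ne_top R.μ _) (1 : ℝ) h.mps
  exact e1.trans e2.symm

/-- conditional expectation of a Kronecker vector is constant -/
lemma Pop_ap (h : IsJoining S R l) (hK : KronProd S R l) {f : Lp ℝ 2 S.μ} (hf : IsAP S f) :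
    Pop h f = (∫ x, f x ∂S.μ) • one R := by
  set v := Pop h f - (∫ x, f x ∂S.μ) • one R with hv
  have hfk : f ∈ kron S := Submodule.le_topologicalClosure _ (Submodule.subset_span hf)
  have hvap : IsAP R v := by
    have hr : (Set.range fun γ : G => koop R γ v) =
        (fun w => w - (∫ x, f x ∂S.μ) • one R) '' (Pop h '' (Set.range fun γ : G => koop S γ f)) := by
      ext w
      simp only [Set.mem_range, Set.mem_image, exists_exists_eq_and]
      refine exists_congr fun γ => ?_
      rw [hv, map_sub, map_smul, koop_one, Pop_koop]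
    have hc : IsCompact ((fun w => w - (∫ x, f x ∂S.μ) • one R) ''
        (Pop h '' (closure (Set.range fun γ : G => koop S γ f)))) :=
      (hf.image (Pop h).continuous).image (continuous_id.sub continuous_const)
    refine hc.of_isClosed_subset isClosed_closure (closure_minimal ?_ hc.isClosed)
    rw [hr]
    exact Set.image_mono (Set.image_mono subset_closure)
  have hvk : v ∈ kron R := Submodule.le_topologicalClosure _ (Submodule.subset_span hvap)
  have h0 : ⟪Pop h f - (∫ x, f x ∂S.μ) • one R, v⟫ = 0 := by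
    rw [inner_sub_left, inner_smul_left, inner_one, Pop_inner, bil, hK f hfk v hvk]
    exact sub_self _
  rw [← hv] at h0
  have hv0 : v = 0 := inner_self_eq_zero.1 h0
  exact sub_eq_zero.1 hv0

lemma Pop_kron (h : IsJoining S R l) (hK : KronProd S R l) {f : Lp ℝ 2 S.μ} (hf : f ∈ kron S) :
    Pop h f = (∫ x, f x ∂S.μ) • one R := by
  let L : Lp ℝ 2 S.μ →L[ℝ] Lp ℝ 2 R.μ :=
    Pop h - (innerSL ℝ (one S)).smulRight (one R)
  have hL : ∀ f, L f = Pop h f - (∫ x, f x ∂S.μ) • one R := by
    intro f
    simp only [L, sub_apply, ContinuousLinearMap.smulRight_apply,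
      innerSL_apply_apply, inner_one]
  have hk : kron S ≤ LinearMap.ker (L : Lp ℝ 2 S.μ →ₗ[ℝ] Lp ℝ 2 R.μ) := by
    refine Submodule.topologicalClosure_minimal _ ?_ L.isClosed_ker
    rw [Submodule.span_le]
    intro f hf
    change L f = 0
    rw [hL, Pop_ap h hK hf, sub_self]
  have := hk hf
  change L f = 0 at this
  rw [hL] at this
  exact sub_eq_zero.1 this

lemma kron_left (h : IsJoining S R l) (hK : KronProd S R l) {f : Lp ℝ 2 S.μ} (hf : f ∈ kron S)
    (g : Lp ℝ 2 R.μ) : ⟪JF h f, JS h g⟫ = (∫ x, f x ∂S.μ) * ∫ y, g y ∂(R.μ) := by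
  rw [← Pop_inner, Pop_kron h hK hf, inner_smul_left, inner_one]
  rfl

end Basic

section Relative

variable {S R : GSys G} {l : Measure (S.X × R.X)}

/-- conditional measures of the first coordinate given the second -/
noncomputable def kap (l : Measure (S.X × R.X)) [IsProbabilityMeasure l] : Kernel R.X S.X :=
  haveI : IsProbabilityMeasure (l.map Prod.swap) :=
    Measure.isProbabilityMeasure_map measurable_swap.aemeasurable
  (l.map Prod.swap).condKernel

instance (l : Measure (S.X × R.X)) [IsProbabilityMeasure l] : IsMarkovKernel (kap l) := by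
  unfold kap
  infer_instance

lemma kap_disint (h : IsJoining S R l) [IsProbabilityMeasure l] :
    R.μ ⊗ₘ kap l = l.map Prod.swap := by
  have : IsProbabilityMeasure (l.map Prod.swap) :=
    Measure.isProbabilityMeasure_map measurable_swap.aemeasurable
  have h1 := (l.map Prod.swap).disintegrate (l.map Prod.swap).condKernel
  have h2 : (l.map Prod.swap).fst = R.μ := h.swap.fst
  rw [h2] at h1
  exact h1

lemma integrable_bil (h : IsJoining S R l) (f : Lp ℝ 2 S.μ) (g : Lp ℝ 2 R.μ) :
    Integrable (fun p => f p.1 * g p.2) l :=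
  MemLp.integrable_mul ((Lp.memLp f).comp_measurePreserving h.mpf)
    ((Lp.memLp g).comp_measurePreserving h.mps)

lemma integral_swap_kap (h : IsJoining S R l) [IsProbabilityMeasure l] {F : S.X × R.X → ℝ}
    (hF : Integrable F l) :
    Integrable (fun y => ∫ x, F (x, y) ∂(kap l y)) R.μ ∧
    ∫ p, F p ∂l = ∫ y, ∫ x, F (x, y) ∂(kap l y) ∂(R.μ) := by
  have hmp : MeasurePreserving Prod.swap l (l.map Prod.swap) := ⟨measurable_swap, rfl⟩
  have hemb : MeasurableEmbedding (Prod.swap : S.X × R.X → R.X × S.X) :=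
    MeasurableEquiv.prodComm.measurableEmbedding
  have hF' : Integrable (fun q : R.X × S.X => F q.swap) (R.μ ⊗ₘ kap l) := by
    rw [kap_disint h]
    rw [← hmp.integrable_comp_emb hemb]
    exact hF
  have h1 := Measure.integral_compProd hF'
  refine ⟨?_, ?_⟩
  · rw [Measure.compProd] at hF'
    simpa using hF'.integral_compProd
  · rw [kap_disint h, ← hmp.integral_comp hemb] at h1
    exact h1

lemma Pop_ae (h : IsJoining S R l) [IsProbabilityMeasure l] (f : Lp ℝ 2 S.μ) :
    Pop h f =ᵐ[R.μ] fun y => ∫ x, f x ∂(kap l y) := by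
  have hfi : Integrable (fun p : S.X × R.X => f p.1) l :=
    (((Lp.memLp f).comp_measurePreserving h.mpf).integrable (by norm_num))
  obtain ⟨h1, -⟩ := integral_swap_kap h hfi
  refine Integrable.ae_eq_of_forall_setIntegral_eq _ _ ((Lp.memLp _).integrable (by norm_num))
    h1 fun B hB _ => ?_
  have hfB : Integrable (fun p : S.X × R.X => (Prod.snd ⁻¹' B).indicator (fun p => f p.1) p) l :=
    hfi.indicator (measurable_snd hB)
  obtain ⟨-, h2⟩ := integral_swap_kap h hfB
  rw [← L2.inner_indicatorConstLp_one hB (measure_ne_top R.μ _), real_inner_comm, Pop_inner, bil,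
    ← integral_indicator hB]
  have h3 : ∫ p, f p.1 * (indicatorConstLp 2 hB (measure_ne_top R.μ _) (1 : ℝ)) p.2 ∂l =
      ∫ p, (Prod.snd ⁻¹' B).indicator (fun p => f p.1) p ∂l := by
    refine integral_congr_ae ?_
    have := h.mps.quasiMeasurePreserving.ae (indicatorConstLp_coeFn (p := 2) (hs := hB)
      (hμs := measure_ne_top R.μ B) (c := (1 : ℝ)))
    filter_upwards [this] with p hp
    rw [hp]
    by_cases hpB : p.2 ∈ B
    · rw [Set.indicator_of_mem hpB, Set.indicator_of_mem (show p ∈ Prod.snd ⁻¹' B from hpB),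
        mul_one]
    · rw [Set.indicator_of_notMem hpB,
        Set.indicator_of_notMem (show p ∉ Prod.snd ⁻¹' B from hpB), mul_zero]
  rw [h3, h2]
  refine integral_congr_ae (Eventually.of_forall fun y => ?_)
  by_cases hy : y ∈ B
  · simp only [Set.indicator_of_mem hy]
    refine integral_congr_ae (Eventually.of_forall fun x => ?_)
    exact Set.indicator_of_mem (show (x, y) ∈ Prod.snd ⁻¹' B from hy) _
  · simp only [Set.indicator_of_notMem hy]
    refine integral_eq_zero_of_ae (Eventually.of_forall fun x => ?_)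
    exact Set.indicator_of_notMem (show (x, y) ∉ Prod.snd ⁻¹' B from hy) _

/-- The relatively independent self-joining over the second coordinate. -/
noncomputable def rho (R : GSys G) (l : Measure (S.X × R.X)) [IsProbabilityMeasure l] :
    Measure (S.X × S.X) :=
  (R.μ ⊗ₘ (kap l ×ₖ kap l)).snd

instance (l : Measure (S.X × R.X)) [IsProbabilityMeasure l] : IsProbabilityMeasure (rho R l) := by
  unfold rho
  infer_instance

lemma rho_apply (l : Measure (S.X × R.X)) [IsProbabilityMeasure l] {A B : Set S.X}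
    (hA : MeasurableSet A) (hB : MeasurableSet B) :
    rho R l (A ×ˢ B) = ∫⁻ y, kap l y A * kap l y B ∂(R.μ) := by
  unfold rho
  rw [Measure.snd_apply (hA.prod hB), Measure.compProd_apply (measurable_snd (hA.prod hB))]
  refine lintegral_congr fun y => ?_
  rw [Kernel.prod_apply]
  change (kap l y).prod (kap l y) (A ×ˢ B) = _
  rw [Measure.prod_prod]

/-- indicator of a measurable set in `L²` -/
noncomputable def ind (S : GSys G) {A : Set S.X} (hA : MeasurableSet A) : Lp ℝ 2 S.μ :=
  indicatorConstLp 2 hA (measure_ne_top S.μ _) (1 : ℝ)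

lemma Pop_ind (h : IsJoining S R l) [IsProbabilityMeasure l] {A : Set S.X}
    (hA : MeasurableSet A) : Pop h (ind S hA) =ᵐ[R.μ] fun y => (kap l y).real A := by
  refine (Pop_ae h _).trans ?_
  have h1 : ∀ᵐ p ∂l, (ind S hA) p.1 = A.indicator (fun _ => (1 : ℝ)) p.1 :=
    h.mpf.quasiMeasurePreserving.ae (indicatorConstLp_coeFn (p := 2) (hs := hA)
      (hμs := measure_ne_top S.μ A) (c := (1 : ℝ)))
  have h2 : ∀ᵐ y ∂(R.μ), ∀ᵐ x ∂(kap l y), (ind S hA) x = A.indicator (fun _ => (1 : ℝ)) x := by
    have hmp : MeasurePreserving Prod.swap l (l.map Prod.swap) := ⟨measurable_swap, rfl⟩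
    have h3 : ∀ᵐ q ∂(l.map Prod.swap), (ind S hA) q.2 = A.indicator (fun _ => (1 : ℝ)) q.2 := by
      have hemb : MeasurableEmbedding (Prod.swap : S.X × R.X → R.X × S.X) :=
        MeasurableEquiv.prodComm.measurableEmbedding
      rw [hemb.ae_map_iff]
      exact h1
    rw [← kap_disint h] at h3
    exact Measure.ae_ae_of_ae_compProd h3
  filter_upwards [h2] with y hy
  rw [integral_congr_ae hy, integral_indicator_const _ hA, smul_eq_mul, mul_one]

lemma l_real (h : IsJoining S R l) {A : Set S.X} {B : Set R.X}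
    (hA : MeasurableSet A) (hB : MeasurableSet B) :
    l.real (A ×ˢ B) = ⟪JF h (ind S hA), JS h (ind R hB)⟫ := by
  have := h.prob
  have e1 := Lp.indicatorConstLp_compMeasurePreserving (p := 2) hA
    (measure_ne_top S.μ _) (1 : ℝ) h.mpf
  have e2 := Lp.indicatorConstLp_compMeasurePreserving (p := 2) hB
    (measure_ne_top R.μ _) (1 : ℝ) h.mps
  have e3 : JF h (ind S hA) = indicatorConstLp 2 (hA.preimage measurable_fst)
    (measure_ne_top l _) (1 : ℝ) := e1
  have e4 : JS h (ind R hB) = indicatorConstLp 2 (hB.preimage measurable_snd)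
    (measure_ne_top l _) (1 : ℝ) := e2
  rw [e3, e4, L2.inner_indicatorConstLp_one_indicatorConstLp_one]
  rfl

lemma inner_one_ind (S : GSys G) {A : Set S.X} (hA : MeasurableSet A) :
    ⟪one S, ind S hA⟫ = S.μ.real A := by
  unfold one ind
  rw [L2.inner_indicatorConstLp_one_indicatorConstLp_one, Set.univ_inter]
  rfl

lemma rho_real (h : IsJoining S R l) [IsProbabilityMeasure l] {A B : Set S.X}
    (hA : MeasurableSet A) (hB : MeasurableSet B) :
    (rho R l).real (A ×ˢ B) = ⟪Pop h (ind S hA), Pop h (ind S hB)⟫ := by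
  rw [L2.inner_def]
  have e : ∫ y, ⟪(Pop h (ind S hA)) y, (Pop h (ind S hB)) y⟫ ∂(R.μ) =
      ∫ y, (kap l y A * kap l y B).toReal ∂(R.μ) := by
    refine integral_congr_ae ?_
    filter_upwards [Pop_ind h hA, Pop_ind h hB] with y h1 h2
    rw [h1, h2, ENNReal.toReal_mul]
    simp [Measure.real, mul_comm]
  rw [e, integral_toReal, ← rho_apply l hA hB]
  · rfl
  · exact (((kap l).measurable_coe hA).mul ((kap l).measurable_coe hB)).aemeasurable
  · exact Eventually.of_forall fun y => ENNReal.mul_lt_top (measure_lt_top _ _)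
      (measure_lt_top _ _)

lemma koop_ind (S : GSys G) (γ : G) {A : Set S.X} (hA : MeasurableSet A) :
    koop S γ (ind S hA) = ind S (hA.preimage (measurable_const_smul γ)) := by
  unfold koop ind
  exact Lp.indicatorConstLp_compMeasurePreserving hA _ _ _

lemma rho_joining (h : IsJoining S R l) [IsProbabilityMeasure l] :
    IsJoining S S (rho R l) := by
  have hm : ∀ A : Set S.X, MeasurableSet A → ∫⁻ y, kap l y A ∂(R.μ) = S.μ A := by
    intro A hA
    have h1 : (R.μ ⊗ₘ kap l) (Prod.snd ⁻¹' A) = S.μ A := by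
      rw [kap_disint h, Measure.map_apply measurable_swap (measurable_snd hA), ← h.fst,
        Measure.map_apply measurable_fst hA]
      rfl
    rw [Measure.compProd_apply (measurable_snd hA)] at h1
    exact h1
  refine ⟨?_, ?_, fun γ => ?_⟩
  · ext A hA
    rw [Measure.map_apply measurable_fst hA]
    have : (Prod.fst ⁻¹' A : Set (S.X × S.X)) = A ×ˢ Set.univ := by ext; simp
    rw [this, rho_apply l hA MeasurableSet.univ, ← hm A hA]
    simp
  · ext A hA
    rw [Measure.map_apply measurable_snd hA]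
    have : (Prod.snd ⁻¹' A : Set (S.X × S.X)) = Set.univ ×ˢ A := by ext; simp
    rw [this, rho_apply l MeasurableSet.univ hA, ← hm A hA]
    simp
  · have : IsProbabilityMeasure ((rho R l).map (fun p => (γ • p.1, γ • p.2))) :=
      Measure.isProbabilityMeasure_map (measurable_diag S S γ).aemeasurable
    refine Measure.ext_prod fun {A B} hA hB => ?_
    rw [Measure.map_apply (measurable_diag S S γ) (hA.prod hB)]
    have e : (fun p : S.X × S.X => (γ • p.1, γ • p.2)) ⁻¹' (A ×ˢ B) =
        ((fun x : S.X => γ • x) ⁻¹' A) ×ˢ ((fun x : S.X => γ • x) ⁻¹' B) := by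
      ext p; simp
    rw [e, ← ENNReal.toReal_eq_toReal_iff' (measure_ne_top _ _) (measure_ne_top _ _)]
    change (rho R l).real _ = (rho R l).real _
    rw [rho_real h hA hB, rho_real h (hA.preimage (measurable_const_smul γ))
      (hB.preimage (measurable_const_smul γ)), ← koop_ind, ← koop_ind, Pop_koop, Pop_koop,
      LinearIsometry.inner_map_map]

lemma rho_kron (h : IsJoining S R l) [IsProbabilityMeasure l] (hK : KronProd S R l) :
    KronProd S S (rho R l) := by
  intro f hf g hg
  have hi := integrable_bil (rho_joining h) f g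
  have hmp : MeasurePreserving Prod.snd (R.μ ⊗ₘ (kap l ×ₖ kap l)) (rho R l) :=
    ⟨measurable_snd, rfl⟩
  have hi' : Integrable (fun q : R.X × (S.X × S.X) => f q.2.1 * g q.2.2)
      (R.μ ⊗ₘ (kap l ×ₖ kap l)) := hmp.integrable_comp_of_integrable hi
  have h1 := Measure.integral_compProd hi'
  have h2 : ∫ p, f p.1 * g p.2 ∂(rho R l) =
      ∫ q, f q.2.1 * g q.2.2 ∂(R.μ ⊗ₘ (kap l ×ₖ kap l)) := by
    unfold rho
    rw [Measure.snd, integral_map measurable_snd.aemeasurable]
    exact hi.aestronglyMeasurable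
  rw [h2, h1]
  have h3 : ∀ y, ∫ p, f p.1 * g p.2 ∂((kap l ×ₖ kap l) y) =
      (∫ x, f x ∂(kap l y)) * ∫ x, g x ∂(kap l y) := by
    intro y
    rw [Kernel.prod_apply]
    exact integral_prod_mul _ _
  have h4 : ∫ y, ∫ p, f p.1 * g p.2 ∂((kap l ×ₖ kap l) y) ∂(R.μ) =
      ⟪Pop h f, Pop h g⟫ := by
    rw [L2.inner_def]
    refine integral_congr_ae ?_
    filter_upwards [Pop_ae h f, Pop_ae h g] with y e1 e2
    rw [h3, e1, e2]
    simp [mul_comm]
  refine h4.trans ?_
  rw [Pop_kron h hK hf, Pop_kron h hK hg, inner_smul_left, inner_smul_right, inner_one]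
  have h5 : ∫ x, (one R) x ∂(R.μ) = 1 := by
    rw [← inner_one]
    unfold one
    rw [L2.inner_indicatorConstLp_one_indicatorConstLp_one]
    simp
  rw [h5]
  simp

/-- If `S` is quasi-disjoint from itself then it is quasi-disjoint from every system. -/
theorem qd_of_self (S : GSys G) (hS : QD S S) (R : GSys G) : QD S R := by
  intro l h hK
  have : IsProbabilityMeasure l := h.prob
  have hr := hS (rho R l) (rho_joining h) (rho_kron h hK)
  have hone : ⟪one R, one R⟫ = 1 := by
    unfold one
    rw [L2.inner_indicatorConstLp_one_indicatorConstLp_one]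
    simp
  refine Measure.ext_prod fun {A B} hA hB => ?_
  have hP : Pop h (ind S hA) = S.μ.real A • one R := by
    have h1 : ⟪Pop h (ind S hA), Pop h (ind S hA)⟫ = S.μ.real A * S.μ.real A := by
      rw [← rho_real h hA hA, hr, measureReal_def, Measure.prod_prod, ENNReal.toReal_mul]
      rfl
    have h2 : ⟪Pop h (ind S hA), one R⟫ = S.μ.real A := by
      rw [Pop_inner, ← JF_one_eq, LinearIsometry.inner_map_map, real_inner_comm, inner_one_ind]
    have h3 : ⟪Pop h (ind S hA) - S.μ.real A • one R, Pop h (ind S hA) - S.μ.real A • one R⟫ =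
        0 := by
      rw [inner_sub_left, inner_sub_right, inner_sub_right, inner_smul_left, inner_smul_right,
        inner_smul_right, inner_smul_left, h1, h2, real_inner_comm, h2, hone]
      simp
    exact sub_eq_zero.1 (inner_self_eq_zero.1 h3)
  rw [← ENNReal.toReal_eq_toReal_iff' (measure_ne_top _ _) (measure_ne_top _ _),
    Measure.prod_prod, ENNReal.toReal_mul]
  change l.real (A ×ˢ B) = S.μ.real A * R.μ.real B
  rw [l_real h hA hB, ← Pop_inner, hP, inner_smul_left, inner_one_ind]
  rfl

end Relative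

section Fibres

/-- the invariant Borel sets -/
def invSA (S : GSys G) : MeasurableSpace S.X where
  MeasurableSet' A := MeasurableSet A ∧ ∀ γ : G, (fun x => γ • x) ⁻¹' A = A
  measurableSet_empty := ⟨MeasurableSet.empty, fun _ => rfl⟩
  measurableSet_compl A hA := ⟨hA.1.compl, fun γ => by rw [Set.preimage_compl, hA.2 γ]⟩
  measurableSet_iUnion A hA := ⟨MeasurableSet.iUnion fun i => (hA i).1, fun γ => by
    rw [Set.preimage_iUnion]
    exact Set.iUnion_congr fun i => (hA i).2 γ⟩

/-- the invariant sets of the second coordinate -/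
def JJ (S : GSys G) : MeasurableSpace (S.X × S.X) := (invSA S).comap Prod.snd

lemma JJ_le (S : GSys G) : JJ S ≤ Prod.instMeasurableSpace := by
  rintro _ ⟨B, hB, rfl⟩
  exact measurable_snd hB.1

variable {S : GSys G} {l : Measure (S.X × S.X)} [IsProbabilityMeasure l]

/-- conditional measures given the invariant sets of the second coordinate -/
noncomputable def kk (l : Measure (S.X × S.X)) [IsProbabilityMeasure l] (z : S.X × S.X) :
    Measure (S.X × S.X) := condExpKernel l (JJ S) z

instance (z : S.X × S.X) : IsProbabilityMeasure (kk l z) := by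
  unfold kk
  infer_instance

lemma ce {F F' : S.X × S.X → ℝ} (hF : Integrable F l) (hF' : Integrable F' l)
    (h : ∀ B : Set S.X, MeasurableSet[invSA S] B →
      ∫ p in Prod.snd ⁻¹' B, F p ∂l = ∫ p in Prod.snd ⁻¹' B, F' p ∂l) :
    ∀ᵐ z ∂l, ∫ p, F p ∂(kk l z) = ∫ p, F' p ∂(kk l z) := by
  have h1 := condExp_ae_eq_integral_condExpKernel (JJ_le S) hF
  have h2 := condExp_ae_eq_integral_condExpKernel (JJ_le S) hF'
  have h3 : l[F | JJ S] =ᵐ[l] l[F' | JJ S] := by
    refine ae_eq_condExp_of_forall_setIntegral_eq (JJ_le S) hF'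
      (fun s _ _ => integrable_condExp.integrableOn) ?_
      stronglyMeasurable_condExp.aestronglyMeasurable
    rintro _ hs _
    rw [setIntegral_condExp (JJ_le S) hF hs]
    obtain ⟨B, hB, rfl⟩ := hs
    exact h B hB
  filter_upwards [h1, h2, h3] with z e1 e2 e3
  exact e1.symm.trans (e3.trans e2)

lemma ce_set {D D' : Set (S.X × S.X)} (hD : MeasurableSet D) (hD' : MeasurableSet D')
    (h : ∀ B : Set S.X, MeasurableSet[invSA S] B →
      l.real (Prod.snd ⁻¹' B ∩ D) = l.real (Prod.snd ⁻¹' B ∩ D')) :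
    ∀ᵐ z ∂l, kk l z D = kk l z D' := by
  have h1 := ce (l := l) (F := D.indicator fun _ => (1 : ℝ)) (F' := D'.indicator fun _ => (1 : ℝ))
    ((integrable_const 1).indicator hD) ((integrable_const 1).indicator hD') ?_
  · filter_upwards [h1] with z hz
    rw [integral_indicator_const _ hD, integral_indicator_const _ hD'] at hz
    simp only [smul_eq_mul, mul_one] at hz
    exact (ENNReal.toReal_eq_toReal_iff' (measure_ne_top _ _) (measure_ne_top _ _)).1 hz
  · intro B hB
    rw [setIntegral_indicator hD, setIntegral_indicator hD']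
    simp only [setIntegral_const, smul_eq_mul, mul_one]
    exact h B hB

lemma ae_kk {P : S.X × S.X → Prop} (h : ∀ᵐ p ∂l, P p) : ∀ᵐ z ∂l, ∀ᵐ p ∂(kk l z), P p := by
  have h1 := condExpKernel_comp_trim (μ := l) (JJ_le S)
  rw [← h1] at h
  exact ae_of_ae_trim (JJ_le S) (Measure.ae_ae_of_ae_comp h)

lemma lint_kk {F : S.X × S.X → ENNReal} (hF : Measurable F) :
    ∫⁻ z, ∫⁻ p, F p ∂(kk l z) ∂l = ∫⁻ p, F p ∂l := by
  have h1 := condExpKernel_comp_trim (μ := l) (JJ_le S)
  conv_rhs => rw [← h1]
  rw [Measure.lintegral_bind]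
  · rw [lintegral_trim (JJ_le S)]
    · rfl
    · exact hF.lintegral_kernel
  · exact (Kernel.measurable _).aemeasurable
  · exact hF.aemeasurable

lemma const_kk {F : S.X → ℝ} (hF : Measurable[invSA S] F) :
    ∀ᵐ z ∂l, ∀ᵐ p ∂(kk l z), F p.2 = F z.2 := by
  have h1 : ∀ r : ℚ, ∀ᵐ z ∂l, (kk l z).real {p | F p.2 < r} =
      Set.indicator {p : S.X × S.X | F p.2 < r} (fun _ => (1 : ℝ)) z := by
    intro r
    have hm : MeasurableSet[JJ S] {p : S.X × S.X | F p.2 < r} :=
      ⟨{x | F x < r}, hF measurableSet_Iio, rfl⟩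
    have h2 := condExpKernel_ae_eq_condExp (μ := l) (JJ_le S) (JJ_le S _ hm)
    have h3 : l⟦{p : S.X × S.X | F p.2 < r} | JJ S⟧ =
        Set.indicator {p : S.X × S.X | F p.2 < r} (fun _ => (1 : ℝ)) := by
      refine condExp_of_stronglyMeasurable (JJ_le S) ?_ ?_
      · exact StronglyMeasurable.indicator stronglyMeasurable_const hm
      · exact (integrable_const 1).indicator (JJ_le S _ hm)
    rw [h3] at h2
    exact h2
  filter_upwards [ae_all_iff.2 h1] with z hz
  have h4 : ∀ r : ℚ, ∀ᵐ p ∂(kk l z), (F p.2 < r ↔ F z.2 < r) := by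
    intro r
    have hm : MeasurableSet {p : S.X × S.X | F p.2 < r} :=
      JJ_le S _ ⟨{x | F x < r}, hF measurableSet_Iio, rfl⟩
    have h5 := hz r
    by_cases hr : F z.2 < r
    · rw [Set.indicator_of_mem (show z ∈ {p : S.X × S.X | F p.2 < r} from hr)] at h5
      have h6 : kk l z {p : S.X × S.X | F p.2 < r} = 1 := by
        have := (ENNReal.toReal_eq_one_iff _).1 h5
        exact this
      have h7 : ∀ᵐ p ∂(kk l z), p ∈ {p : S.X × S.X | F p.2 < r} :=
        (prob_compl_eq_zero_iff hm).2 h6
      filter_upwards [h7] with p hp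
      exact ⟨fun _ => hr, fun _ => hp⟩
    · rw [Set.indicator_of_notMem (show z ∉ {p : S.X × S.X | F p.2 < r} from hr)] at h5
      have h6 : kk l z {p : S.X × S.X | F p.2 < r} = 0 :=
        (measureReal_eq_zero_iff (measure_ne_top _ _)).1 h5
      have h7 : ∀ᵐ p ∂(kk l z), p ∉ {p : S.X × S.X | F p.2 < r} :=
        measure_eq_zero_iff_ae_notMem.1 h6
      filter_upwards [h7] with p hp
      exact ⟨fun h => absurd h hp, fun h => absurd h hr⟩
  filter_upwards [ae_all_iff.2 h4] with p hp
  rcases lt_trichotomy (F p.2) (F z.2) with h | h | h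
  · obtain ⟨r, hr1, hr2⟩ := exists_rat_btwn h
    exact absurd ((hp r).1 hr1) (not_lt.2 hr2.le)
  · exact h
  · obtain ⟨r, hr1, hr2⟩ := exists_rat_btwn h
    exact absurd ((hp r).2 hr1) (not_lt.2 hr2.le)

/-- null integrals over invariant sets for almost every fibre -/
def Zp (l : Measure (S.X × S.X)) [IsProbabilityMeasure l] (φ : S.X → ℝ) : Prop :=
  ∀ᵐ z ∂l, Integrable (fun p => φ p.2) (kk l z) ∧
    ∀ A : Set S.X, MeasurableSet[invSA S] A → ∫ p in Prod.snd ⁻¹' A, φ p.2 ∂(kk l z) = 0

lemma Zp_congr (h : IsJoining S S l) {φ φ' : S.X → ℝ} (he : φ =ᵐ[S.μ] φ') (hφ : Zp l φ) :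
    Zp l φ' := by
  have h1 : ∀ᵐ p ∂l, φ p.2 = φ' p.2 := h.mps.quasiMeasurePreserving.ae he
  filter_upwards [hφ, ae_kk h1] with z hz1 hz2
  refine ⟨hz1.1.congr hz2, fun A hA => ?_⟩
  rw [← hz1.2 A hA]
  exact (integral_congr_ae (ae_restrict_of_ae hz2)).symm

lemma integrable_kk {F : S.X × S.X → ℝ} (hF : Integrable F l) :
    ∀ᵐ z ∂l, Integrable F (kk l z) := hF.condExpKernel_ae

lemma inv_kk (h : IsJoining S S l) [Countable G] :
    ∀ᵐ z ∂l, ∀ γ : G, (kk l z).map (fun p => (γ • p.1, γ • p.2)) = kk l z := by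
  obtain ⟨b, hbc, hb⟩ := MeasurableSpace.CountablyGenerated.isCountablyGenerated
    (α := S.X × S.X)
  have hAc : (generateSetAlgebra b).Countable := countable_generateSetAlgebra hbc
  have hAlg : IsSetAlgebra (generateSetAlgebra b) := isSetAlgebra_generateSetAlgebra
  have hgen : Prod.instMeasurableSpace = MeasurableSpace.generateFrom (generateSetAlgebra b) := by
    rw [generateFrom_generateSetAlgebra_eq]
    exact hb
  have hmeas : ∀ D ∈ generateSetAlgebra b, MeasurableSet D := by
    intro D hD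
    rw [hgen]
    exact MeasurableSpace.measurableSet_generateFrom hD
  have h1 : ∀ γ : G, ∀ D : generateSetAlgebra b, ∀ᵐ z ∂l,
      kk l z ((fun p : S.X × S.X => (γ • p.1, γ • p.2)) ⁻¹' D.1) = kk l z D.1 := by
    intro γ D
    refine ce_set ((measurable_diag S S γ) (hmeas D.1 D.2)) (hmeas D.1 D.2) fun B hB => ?_
    have e : (Prod.snd ⁻¹' B : Set (S.X × S.X)) ∩
        (fun p : S.X × S.X => (γ • p.1, γ • p.2)) ⁻¹' D.1 =
        (fun p : S.X × S.X => (γ • p.1, γ • p.2)) ⁻¹' (Prod.snd ⁻¹' B ∩ D.1) := by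
      have := hB.2 γ
      ext p
      have h2 : p.2 ∈ B ↔ γ • p.2 ∈ B := by
        conv_lhs => rw [← this]
        rfl
      simp only [Set.mem_inter_iff, Set.mem_preimage, h2]
    rw [e]
    exact (h.mpi γ).measureReal_preimage
      ((measurable_snd hB.1).inter (hmeas D.1 D.2)).nullMeasurableSet
  have : Countable (generateSetAlgebra b) := hAc.to_subtype
  filter_upwards [ae_all_iff.2 fun γ => ae_all_iff.2 (h1 γ)] with z hz γ
  have : IsProbabilityMeasure ((kk l z).map (fun p => (γ • p.1, γ • p.2))) :=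
    Measure.isProbabilityMeasure_map (measurable_diag S S γ).aemeasurable
  refine ext_of_generate_finite (generateSetAlgebra b) hgen
    (fun s hs t ht _ => hAlg.inter_mem hs ht) (fun D hD => ?_) (by simp)
  rw [Measure.map_apply (measurable_diag S S γ) (hmeas D hD)]
  exact hz γ ⟨D, hD⟩

lemma diag_emb (S R : GSys G) (γ : G) :
    MeasurableEmbedding (fun p : S.X × R.X => (γ • p.1, γ • p.2)) := by
  refine MeasurableEmbedding.of_measurable_inverse (g := fun p => (γ⁻¹ • p.1, γ⁻¹ • p.2))
    (measurable_diag S R γ) ?_ (measurable_diag S R γ⁻¹) ?_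
  · have : Set.range (fun p : S.X × R.X => (γ • p.1, γ • p.2)) = Set.univ := by
      refine Set.eq_univ_of_forall fun p => ⟨(γ⁻¹ • p.1, γ⁻¹ • p.2), ?_⟩
      simp
    rw [this]
    exact MeasurableSet.univ
  · intro p
    simp

lemma Zp_gen (h : IsJoining S S l) [Countable G] (γ : G) (w : Lp ℝ 2 S.μ) :
    Zp l (fun y => w (γ • y) - w y) := by
  have hw : Integrable (fun p : S.X × S.X => w p.2) l :=
    ((Lp.memLp w).comp_measurePreserving h.mps).integrable (by norm_num)
  filter_upwards [inv_kk h, integrable_kk hw] with z hz1 hz2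
  have hmp : MeasurePreserving (fun p : S.X × S.X => (γ • p.1, γ • p.2)) (kk l z) (kk l z) :=
    ⟨measurable_diag S S γ, hz1 γ⟩
  have hi : Integrable (fun p : S.X × S.X => w (γ • p.2)) (kk l z) :=
    hmp.integrable_comp_of_integrable hz2
  refine ⟨hi.sub hz2, fun A hA => ?_⟩
  rw [integral_sub hi.integrableOn hz2.integrableOn, sub_eq_zero]
  have e : (fun p : S.X × S.X => (γ • p.1, γ • p.2)) ⁻¹' (Prod.snd ⁻¹' A) = Prod.snd ⁻¹' A := by
    have := hA.2 γ
    ext p
    have h2 : p.2 ∈ A ↔ γ • p.2 ∈ A := by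
      conv_lhs => rw [← this]
      rfl
    simp only [Set.mem_preimage, h2]
  have h3 := hmp.setIntegral_preimage_emb (diag_emb S S γ) (fun p => w p.2) (Prod.snd ⁻¹' A)
  rw [e] at h3
  exact h3

/-- the coboundary space -/
noncomputable def cob (S : GSys G) : Submodule ℝ (Lp ℝ 2 S.μ) :=
  Submodule.span ℝ {w | ∃ (γ : G) (v : Lp ℝ 2 S.μ), w = koop S γ v - v}

lemma Zp_cob (h : IsJoining S S l) [Countable G] {w : Lp ℝ 2 S.μ} (hw : w ∈ cob S) :
    Zp l w := by
  refine Submodule.span_induction (R := ℝ) (M := Lp ℝ 2 S.μ)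
    (s := {w | ∃ (γ : G) (v : Lp ℝ 2 S.μ), w = koop S γ v - v})
    (p := fun (u : Lp ℝ 2 S.μ) _ => Zp l (u : S.X → ℝ)) ?_ ?_ ?_ ?_ hw
  · rintro w ⟨γ, v, rfl⟩
    refine Zp_congr h ?_ (Zp_gen h γ v)
    filter_upwards [Lp.coeFn_sub (koop S γ v) v,
      Lp.coeFn_compMeasurePreserving v (measurePreserving_smul γ S.μ)] with x h1 h2
    rw [h1, Pi.sub_apply]
    change _ = (Lp.compMeasurePreserving _ _ v) x - _
    rw [h2]
    rfl
  · refine Zp_congr h (Lp.coeFn_zero _ _ _).symm ?_
    refine Eventually.of_forall fun z => ⟨integrable_zero _ _ _, fun A _ => ?_⟩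
    simp
  · intro u v _ _ hu hv
    refine Zp_congr h (Lp.coeFn_add u v).symm ?_
    filter_upwards [hu, hv] with z h1 h2
    refine ⟨h1.1.add h2.1, fun A hA => ?_⟩
    have := integral_add (μ := (kk l z).restrict (Prod.snd ⁻¹' A)) h1.1.integrableOn
      h2.1.integrableOn
    rw [h1.2 A hA, h2.2 A hA, add_zero] at this
    exact this
  · intro a u _ hu
    refine Zp_congr h (Lp.coeFn_smul a u).symm ?_
    filter_upwards [hu] with z h1
    refine ⟨h1.1.smul a, fun A hA => ?_⟩
    have := integral_smul (μ := (kk l z).restrict (Prod.snd ⁻¹' A)) a (fun p => u p.2)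
    rw [h1.2 A hA, smul_zero] at this
    exact this

lemma Zp_closure (h : IsJoining S S l) [Countable G] {w : Lp ℝ 2 S.μ}
    (hw : w ∈ (cob S).topologicalClosure) : Zp l w := by
  have h0 : ∀ n : ℕ, ∃ v ∈ cob S, dist w v < 1 / ((n : ℝ) + 1) := fun n =>
    Metric.mem_closure_iff.1 hw _ Nat.one_div_pos_of_nat
  choose v hv hvd using h0
  have hwi : Integrable (fun p : S.X × S.X => w p.2) l :=
    ((Lp.memLp w).comp_measurePreserving h.mps).integrable (by norm_num)
  have hmeas : ∀ n, Measurable (fun p : S.X × S.X => ‖w p.2 - v n p.2‖ₑ) := by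
    intro n
    exact ((((Lp.stronglyMeasurable w).measurable).comp measurable_snd).sub
      (((Lp.stronglyMeasurable (v n)).measurable).comp measurable_snd)).enorm
  have hD : ∀ n, ∫⁻ z, ∫⁻ p, ‖w p.2 - v n p.2‖ₑ ∂(kk l z) ∂l ≤
      ENNReal.ofReal (1 / ((n : ℝ) + 1)) := by
    intro n
    rw [lint_kk (hmeas n)]
    have e1 : ∫⁻ p, ‖w p.2 - v n p.2‖ₑ ∂l = eLpNorm (fun x => w x - v n x) 1 S.μ := by
      rw [eLpNorm_one_eq_lintegral_enorm]
      exact h.mps.lintegral_comp ((((Lp.stronglyMeasurable w).measurable).sub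
        ((Lp.stronglyMeasurable (v n)).measurable)).enorm)
    rw [e1]
    have e2 : eLpNorm (fun x => w x - v n x) 1 S.μ ≤ eLpNorm (fun x => w x - v n x) 2 S.μ :=
      eLpNorm_le_eLpNorm_of_exponent_le (by norm_num)
        ((Lp.aestronglyMeasurable w).sub (Lp.aestronglyMeasurable (v n)))
    refine e2.trans ?_
    have e3 : eLpNorm (fun x => w x - v n x) 2 S.μ = ENNReal.ofReal (dist w (v n)) := by
      rw [dist_eq_norm, Lp.norm_def, ENNReal.ofReal_toReal (Lp.eLpNorm_ne_top _)]
      exact eLpNorm_congr_ae (Lp.coeFn_sub w (v n)).symm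
    rw [e3]
    exact ENNReal.ofReal_le_ofReal (hvd n).le
  have hDm : ∀ n, Measurable (fun z => ∫⁻ p, ‖w p.2 - v n p.2‖ₑ ∂(kk l z)) := by
    intro n
    have : Measurable[JJ S] (fun z => ∫⁻ p, ‖w p.2 - v n p.2‖ₑ ∂(condExpKernel l (JJ S) z)) :=
      (hmeas n).lintegral_kernel
    exact this.mono (JJ_le S) le_rfl
  have hinf : ∀ᵐ z ∂l, ⨅ n, ∫⁻ p, ‖w p.2 - v n p.2‖ₑ ∂(kk l z) = 0 := by
    have h3 : ∫⁻ z, ⨅ n, ∫⁻ p, ‖w p.2 - v n p.2‖ₑ ∂(kk l z) ∂l = 0 := by
      refine le_antisymm (ge_of_tendsto' (x := atTop)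
        (f := fun n : ℕ => ENNReal.ofReal (1 / ((n : ℝ) + 1))) ?_ fun n => ?_) (zero_le)
      · have := ENNReal.tendsto_ofReal (tendsto_one_div_add_atTop_nhds_zero_nat (𝕜 := ℝ))
        simpa using this
      · exact (lintegral_mono fun z => iInf_le _ n).trans (hD n)
    exact (lintegral_eq_zero_iff (Measurable.iInf hDm)).1 h3
  filter_upwards [integrable_kk hwi, hinf, ae_all_iff.2 fun n => Zp_cob h (hv n)]
    with z hz1 hz2 hz3
  refine ⟨hz1, fun A hA => ?_⟩
  have h4 : ∀ n, ‖∫ p in Prod.snd ⁻¹' A, w p.2 ∂(kk l z)‖ₑ ≤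
      ∫⁻ p, ‖w p.2 - v n p.2‖ₑ ∂(kk l z) := by
    intro n
    have h5 : ∫ p in Prod.snd ⁻¹' A, w p.2 ∂(kk l z) =
        ∫ p in Prod.snd ⁻¹' A, (w p.2 - v n p.2) ∂(kk l z) := by
      rw [integral_sub hz1.integrableOn (hz3 n).1.integrableOn, (hz3 n).2 A hA, sub_zero]
    rw [h5]
    refine (enorm_integral_le_lintegral_enorm _).trans ?_
    exact lintegral_mono' Measure.restrict_le_self le_rfl
  have h6 : ‖∫ p in Prod.snd ⁻¹' A, w p.2 ∂(kk l z)‖ₑ ≤ 0 := by
    rw [← hz2]
    exact le_iInf h4
  simpa using h6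

lemma inv_rep [Countable G] (p : Lp ℝ 2 S.μ) (hp : ∀ γ : G, koop S γ p = p) :
    ∃ φ : S.X → ℝ, Measurable[invSA S] φ ∧ p =ᵐ[S.μ] φ := by
  classical
  have hfm : Measurable (p : S.X → ℝ) := (Lp.stronglyMeasurable p).measurable
  obtain ⟨f, hf⟩ : ∃ f : S.X → ℝ, f = (p : S.X → ℝ) := ⟨_, rfl⟩
  rw [← hf] at hfm
  rw [← hf]
  let X0 : Set S.X := {x | ∀ γ : G, f (γ • x) = f x}
  have hX0m : MeasurableSet X0 := by
    have : X0 = ⋂ γ : G, {x | f (γ • x) = f x} := by ext; simp [X0]
    rw [this]
    exact MeasurableSet.iInter fun γ =>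
      measurableSet_eq_fun (hfm.comp (measurable_const_smul γ)) hfm
  have hX0f : ∀ γ : G, ∀ x, x ∈ X0 → γ • x ∈ X0 := by
    intro γ x hx δ
    rw [smul_smul, hx (δ * γ), hx γ]
  have hX0i : ∀ γ : G, ∀ x, γ • x ∈ X0 ↔ x ∈ X0 := by
    intro γ x
    refine ⟨fun hx => ?_, hX0f γ x⟩
    have := hX0f γ⁻¹ _ hx
    rwa [inv_smul_smul] at this
  have hae : ∀ᵐ x ∂S.μ, x ∈ X0 := by
    refine ae_all_iff.2 fun γ => ?_
    filter_upwards [Lp.coeFn_compMeasurePreserving p (measurePreserving_smul γ S.μ)] with x hx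
    have h1 : (koop S γ p) x = p (γ • x) := hx
    rw [hp γ, ← hf] at h1
    exact h1.symm
  refine ⟨X0.indicator f, ?_, ?_⟩
  · intro B hB
    refine ⟨(hfm.indicator hX0m) hB, fun γ => ?_⟩
    ext x
    have h1 : X0.indicator f (γ • x) = X0.indicator f x := by
      by_cases hx : x ∈ X0
      · rw [Set.indicator_of_mem hx, Set.indicator_of_mem ((hX0i γ x).2 hx)]
        exact hx γ
      · rw [Set.indicator_of_notMem hx,
          Set.indicator_of_notMem fun h => hx ((hX0i γ x).1 h)]
    simp only [Set.mem_preimage, h1]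
  · filter_upwards [hae] with x hx
    rw [Set.indicator_of_mem hx]

lemma erg_set (h : IsJoining S S l) [Countable G] {C : Set S.X} (hC : MeasurableSet C) :
    ∀ᵐ z ∂l, ∀ A : Set S.X, MeasurableSet[invSA S] A →
      (kk l z).real (Prod.snd ⁻¹' (A ∩ C)) =
        (kk l z).real (Prod.snd ⁻¹' A) * (kk l z).real (Prod.snd ⁻¹' C) := by
  have hcomp : CompleteSpace (cob S).topologicalClosure :=
    (cob S).isClosed_topologicalClosure.completeSpace_coe
  obtain ⟨q, hq, p, hp, hqp⟩ :=
    (cob S).topologicalClosure.exists_add_mem_mem_orthogonal (ind S hC)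
  have hpinv : ∀ γ : G, koop S γ p = p := by
    intro γ
    have h1 : ⟪koop S γ p - p, p⟫ = 0 := by
      refine hp _ (Submodule.le_topologicalClosure _ (Submodule.subset_span ⟨γ, p, rfl⟩))
    have h2 : ⟪koop S γ p - p, koop S γ p - p⟫ = 0 := by
      rw [inner_sub_right, h1, sub_zero, inner_sub_left, LinearIsometry.inner_map_map]
      rw [inner_sub_left] at h1
      rw [real_inner_comm]
      linarith [real_inner_comm p (koop S γ p)]
    exact sub_eq_zero.1 (inner_self_eq_zero.1 h2)
  obtain ⟨φ, hφm, hφ⟩ := inv_rep p hpinv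
  have hae : ∀ᵐ x ∂S.μ, C.indicator (fun _ => (1 : ℝ)) x = q x + φ x := by
    have h1 : ind S hC =ᵐ[S.μ] C.indicator (fun _ => (1 : ℝ)) :=
      indicatorConstLp_coeFn (p := 2) (hs := hC) (hμs := measure_ne_top S.μ C) (c := (1 : ℝ))
    rw [hqp] at h1
    filter_upwards [h1, Lp.coeFn_add q p, hφ] with x e1 e2 e3
    rw [← e1, e2, Pi.add_apply, e3]
  have hae' : ∀ᵐ p ∂l, C.indicator (fun _ => (1 : ℝ)) p.2 = q p.2 + φ p.2 :=
    h.mps.quasiMeasurePreserving.ae hae
  filter_upwards [Zp_closure h hq, const_kk (l := l) hφm, ae_kk hae'] with z h1 h2 h3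
  have h4 : ∀ A : Set S.X, MeasurableSet[invSA S] A →
      (kk l z).real (Prod.snd ⁻¹' (A ∩ C)) = φ z.2 * (kk l z).real (Prod.snd ⁻¹' A) := by
    intro A hA
    have e1 : ∫ p in Prod.snd ⁻¹' A, (Prod.snd ⁻¹' C).indicator (fun _ => (1 : ℝ)) p ∂(kk l z) =
        (kk l z).real (Prod.snd ⁻¹' (A ∩ C)) := by
      rw [setIntegral_indicator (measurable_snd hC), setIntegral_const, smul_eq_mul, mul_one]
      rfl
    have e2 : ∫ p in Prod.snd ⁻¹' A, (Prod.snd ⁻¹' C).indicator (fun _ => (1 : ℝ)) p ∂(kk l z) =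
        ∫ p in Prod.snd ⁻¹' A, (q p.2 + φ z.2) ∂(kk l z) := by
      refine integral_congr_ae (ae_restrict_of_ae ?_)
      filter_upwards [h2, h3] with p h5 h6
      rw [h5] at h6
      rw [← h6]
      rfl
    rw [← e1, e2, integral_add h1.1.integrableOn (integrable_const _).integrableOn, h1.2 A hA,
      setIntegral_const, smul_eq_mul, zero_add, mul_comm]
  intro A hA
  have h5 := h4 Set.univ (@MeasurableSet.univ _ (invSA S))
  simp only [Set.univ_inter, Set.preimage_univ, probReal_univ, mul_one] at h5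
  rw [h4 A hA, h5, mul_comm]

/-- the same action with another invariant measure -/
@[reducible] def withMeas (S : GSys G) (ω : Measure S.X) (h1 : IsProbabilityMeasure ω)
    (h2 : SMulInvariantMeasure G S.X ω) : GSys G :=
  { X := S.X, μ := ω }

lemma inner_JS_ind {S R : GSys G} {l : Measure (S.X × R.X)} (h : IsJoining S R l)
    (f : Lp ℝ 2 S.μ) {D : Set R.X} (hD : MeasurableSet D) :
    ⟪JF h f, JS h (ind R hD)⟫ = ∫ p in Prod.snd ⁻¹' D, f p.1 ∂l := by
  have := h.prob
  have e4 : JS h (ind R hD) = indicatorConstLp 2 (hD.preimage measurable_snd)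
    (measure_ne_top l _) (1 : ℝ) := Lp.indicatorConstLp_compMeasurePreserving hD _ _ _
  rw [e4, real_inner_comm, L2.inner_indicatorConstLp_one]
  refine integral_congr_ae (ae_restrict_of_ae ?_)
  exact Lp.coeFn_compMeasurePreserving f h.mpf

lemma kron_ce (h : IsJoining S S l) (hK : KronProd S S l) {f : Lp ℝ 2 S.μ} (hf : f ∈ kron S)
    {C : Set S.X} (hC : MeasurableSet C) :
    ∀ᵐ z ∂l, ∫ p in Prod.snd ⁻¹' C, (f p.1 - ∫ x, f x ∂S.μ) ∂(kk l z) = 0 := by
  have hfi : Integrable (fun p : S.X × S.X => f p.1) l :=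
    ((Lp.memLp f).comp_measurePreserving h.mpf).integrable (by norm_num)
  have hi : Integrable (fun p : S.X × S.X => f p.1 - ∫ x, f x ∂S.μ) l :=
    hfi.sub (integrable_const _)
  have h1 := ce (l := l) (F := (Prod.snd ⁻¹' C).indicator
    (fun p : S.X × S.X => f p.1 - ∫ x, f x ∂S.μ)) (F' := fun _ => 0)
    (hi.indicator (measurable_snd hC)) (integrable_zero _ _ _) ?_
  · filter_upwards [h1] with z hz
    rw [integral_indicator (measurable_snd hC)] at hz
    rw [hz]
    simp
  · intro B hB
    rw [setIntegral_indicator (measurable_snd hC), integral_sub hfi.integrableOn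
      (integrable_const _).integrableOn, setIntegral_const]
    have e : (Prod.snd ⁻¹' B ∩ Prod.snd ⁻¹' C : Set (S.X × S.X)) = Prod.snd ⁻¹' (B ∩ C) := rfl
    rw [e, ← inner_JS_ind h f (hB.1.inter hC), kron_left h hK hf]
    have e2 : ∫ y, (ind S (hB.1.inter hC)) y ∂S.μ = l.real (Prod.snd ⁻¹' (B ∩ C)) := by
      rw [← inner_one, inner_one_ind]
      exact (h.mps.measureReal_preimage (hB.1.inter hC).nullMeasurableSet).symm
    rw [e2]
    simp [mul_comm]

lemma ind_inv_kron (S : GSys G) {B : Set S.X} (hB : MeasurableSet[invSA S] B) :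
    ind S hB.1 ∈ kron S := by
  refine Submodule.le_topologicalClosure _ (Submodule.subset_span ?_)
  change IsCompact _
  have : (Set.range fun γ : G => koop S γ (ind S hB.1)) = {ind S hB.1} := by
    ext w
    simp only [Set.mem_range, Set.mem_singleton_iff]
    have h1 : ∀ γ : G, koop S γ (ind S hB.1) = ind S hB.1 := by
      intro γ
      rw [koop_ind]
      have := hB.2 γ
      congr 1
    refine ⟨fun ⟨γ, hγ⟩ => ?_, fun hw => ⟨1, ?_⟩⟩
    · rw [← hγ, h1]
    · rw [h1, hw]
  rw [this, closure_singleton]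
  exact isCompact_singleton

lemma fst_ce (h : IsJoining S S l) (hK : KronProd S S l) {C : Set S.X}
    (hC : MeasurableSet C) : ∀ᵐ z ∂l, kk l z (Prod.fst ⁻¹' C) = S.μ C := by
  have hK' : KronProd S S (l.map Prod.swap) := by
    intro f hf g hg
    have hemb : MeasurableEmbedding (Prod.swap : S.X × S.X → S.X × S.X) :=
      MeasurableEquiv.prodComm.measurableEmbedding
    rw [hemb.integral_map]
    have := hK g hg f hf
    rw [mul_comm, ← this]
    refine integral_congr_ae (Eventually.of_forall fun p => ?_)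
    simp [mul_comm]
  have hsw := h.swap
  have hlc : ∀ B : Set S.X, MeasurableSet[invSA S] B →
      l.real (Prod.snd ⁻¹' B ∩ Prod.fst ⁻¹' C) = S.μ.real C * l.real (Prod.snd ⁻¹' B) := by
    intro B hB
    have h1 := kron_left hsw hK' (ind_inv_kron S hB) (ind S hC)
    rw [← l_real hsw hB.1 hC, ← inner_one, ← inner_one, inner_one_ind, inner_one_ind,
      map_measureReal_apply measurable_swap (hB.1.prod hC)] at h1
    have e : (Prod.snd ⁻¹' B ∩ Prod.fst ⁻¹' C : Set (S.X × S.X)) = Prod.swap ⁻¹' (B ×ˢ C) := by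
      ext p; simp [and_comm]
    rw [e, h1, h.mps.measureReal_preimage hB.1.nullMeasurableSet, mul_comm]
  have h1 := ce (l := l) (F := (Prod.fst ⁻¹' C).indicator (fun _ => (1 : ℝ)))
    (F' := fun _ => S.μ.real C) ((integrable_const 1).indicator (measurable_fst hC))
    (integrable_const _) ?_
  · filter_upwards [h1] with z hz
    rw [integral_indicator_const _ (measurable_fst hC)] at hz
    simp only [smul_eq_mul, mul_one, integral_const, probReal_univ, one_mul] at hz
    exact (ENNReal.toReal_eq_toReal_iff' (measure_ne_top _ _) (measure_ne_top _ _)).1 hz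
  · intro B hB
    rw [setIntegral_indicator (measurable_fst hC)]
    simp only [setIntegral_const, smul_eq_mul, mul_one]
    rw [hlc B hB, mul_comm]

omit [IsProbabilityMeasure l] in
/-- If `S` is quasi-disjoint from every ergodic system then it is quasi-disjoint from itself. -/
theorem self_of_ergodic [Countable G] (S : GSys G) (hS : ∀ R : GSys G, R.Ergodic → QD S R) :
    QD S S := by
  intro l h hK
  have : IsProbabilityMeasure l := h.prob
  -- a countable algebra
  obtain ⟨b, hbc, hb⟩ := MeasurableSpace.CountablyGenerated.isCountablyGenerated (α := S.X)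
  have hAc : (generateSetAlgebra b).Countable := countable_generateSetAlgebra hbc
  have hAlg : IsSetAlgebra (generateSetAlgebra b) := isSetAlgebra_generateSetAlgebra
  have hgen : S.ms = MeasurableSpace.generateFrom (generateSetAlgebra b) := by
    rw [generateFrom_generateSetAlgebra_eq]
    exact hb
  have hmeas : ∀ D ∈ generateSetAlgebra b, MeasurableSet D := by
    intro D hD
    rw [hgen]
    exact MeasurableSpace.measurableSet_generateFrom hD
  have hpi : IsPiSystem (generateSetAlgebra b) := fun s hs t ht _ => hAlg.inter_mem hs ht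
  have hcA : Countable (generateSetAlgebra b) := hAc.to_subtype
  -- a countable dense set of Kronecker vectors
  obtain ⟨t, htk, htc, hkt⟩ : ∃ t ⊆ (kron S : Set (Lp ℝ 2 S.μ)), t.Countable ∧
      (kron S : Set (Lp ℝ 2 S.μ)) ⊆ closure t := by
    have : Fact ((2 : ENNReal) ≠ ⊤) := ⟨by norm_num⟩
    have : SecondCountableTopology (Lp ℝ 2 S.μ) := inferInstance
    exact (TopologicalSpace.IsSeparable.of_separableSpace _).exists_countable_dense_subset
  have hct : Countable t := htc.to_subtype
  have hfi : ∀ f : Lp ℝ 2 S.μ, Integrable (fun p : S.X × S.X => f p.1) l := fun f =>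
    ((Lp.memLp f).comp_measurePreserving h.mpf).integrable (by norm_num)
  have a1 := inv_kk h
  have a2 : ∀ᵐ z ∂l, ∀ C : generateSetAlgebra b, ∀ A : Set S.X, MeasurableSet[invSA S] A →
      (kk l z).real (Prod.snd ⁻¹' (A ∩ C.1)) =
        (kk l z).real (Prod.snd ⁻¹' A) * (kk l z).real (Prod.snd ⁻¹' C.1) :=
    ae_all_iff.2 fun C => erg_set h (hmeas C.1 C.2)
  have a3 : ∀ᵐ z ∂l, ∀ C : generateSetAlgebra b, kk l z (Prod.fst ⁻¹' C.1) = S.μ C.1 :=
    ae_all_iff.2 fun C => fst_ce h hK (hmeas C.1 C.2)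
  have a4 : ∀ᵐ z ∂l, ∀ f : t, ∀ C : generateSetAlgebra b,
      ∫ p in Prod.snd ⁻¹' C.1, (f.1 p.1 - ∫ x, f.1 x ∂S.μ) ∂(kk l z) = 0 :=
    ae_all_iff.2 fun f => ae_all_iff.2 fun C => kron_ce h hK (htk f.2) (hmeas C.1 C.2)
  have key : ∀ᵐ z ∂l, kk l z = S.μ.prod ((kk l z).map Prod.snd) := by
    filter_upwards [a1, a2, a3, a4] with z z1 z2 z3 z4
    have hωp : IsProbabilityMeasure ((kk l z).map Prod.snd) :=
      Measure.isProbabilityMeasure_map measurable_snd.aemeasurable
    have hωi : SMulInvariantMeasure G S.X ((kk l z).map Prod.snd) := by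
      refine ⟨fun γ B hB => ?_⟩
      rw [Measure.map_apply measurable_snd hB,
        Measure.map_apply measurable_snd (hB.preimage (measurable_const_smul γ))]
      conv_rhs => rw [← z1 γ, Measure.map_apply (measurable_diag S S γ) (measurable_snd hB)]
      rfl
    have hfst : (kk l z).map Prod.fst = S.μ := by
      have : IsProbabilityMeasure ((kk l z).map Prod.fst) :=
        Measure.isProbabilityMeasure_map measurable_fst.aemeasurable
      refine ext_of_generate_finite (generateSetAlgebra b) hgen hpi (fun D hD => ?_) (by simp)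
      rw [Measure.map_apply measurable_fst (hmeas D hD)]
      exact z3 ⟨D, hD⟩
    have hz : IsJoining S (withMeas S ((kk l z).map Prod.snd) hωp hωi) (kk l z) :=
      ⟨hfst, rfl, z1⟩
    have hErg : (withMeas S ((kk l z).map Prod.snd) hωp hωi).Ergodic := by
      intro A hA hAinv
      have hAm : MeasurableSet[invSA S] A := ⟨hA, hAinv⟩
      change (kk l z).map Prod.snd A = 0 ∨ (kk l z).map Prod.snd A = 1
      set ω := (kk l z).map Prod.snd with hω
      have e1 : ∀ D : Set S.X, MeasurableSet D → ω.real D = (kk l z).real (Prod.snd ⁻¹' D) :=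
        fun D hD => map_measureReal_apply measurable_snd hD
      have e2 : ∀ C ∈ generateSetAlgebra b, ω.restrict A C = (ω A • ω) C := by
        intro C hC
        have h5 := z2 ⟨C, hC⟩ A hAm
        rw [← e1 _ (hA.inter (hmeas C hC)), ← e1 A hA, ← e1 C (hmeas C hC)] at h5
        rw [Measure.restrict_apply (hmeas C hC), Measure.smul_apply, smul_eq_mul,
          ← ENNReal.toReal_eq_toReal_iff' (measure_ne_top _ _)
            (ENNReal.mul_ne_top (measure_ne_top _ _) (measure_ne_top _ _)), ENNReal.toReal_mul,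
          Set.inter_comm]
        exact h5
      have huniv : Set.univ ∈ generateSetAlgebra b := hAlg.univ_mem
      have e3 : ω.restrict A = ω A • ω :=
        ext_of_generate_finite (generateSetAlgebra b) hgen hpi e2 (e2 _ huniv)
      have e4 : ω A = ω A * ω A := by
        have := congrArg (fun m => m A) e3
        simpa [Measure.restrict_apply hA] using this
      have e5 : ω.real A * (1 - ω.real A) = 0 := by
        have := congrArg ENNReal.toReal e4
        rw [ENNReal.toReal_mul] at this
        change ω.real A = ω.real A * ω.real A at this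
        linarith
      rcases mul_eq_zero.1 e5 with h6 | h6
      · left
        exact (measureReal_eq_zero_iff (measure_ne_top _ _)).1 h6
      · right
        have : ω.real A = 1 := by linarith
        exact (ENNReal.toReal_eq_one_iff _).1 this
    have hgi : ∀ f : Lp ℝ 2 S.μ, Integrable (fun p : S.X × S.X => f p.1) (kk l z) := fun f =>
      ((Lp.memLp f).comp_measurePreserving hz.mpf).integrable (by norm_num)
    have hPt : ∀ f ∈ t, Pop hz f = (∫ x, f x ∂S.μ) •
        one (withMeas S ((kk l z).map Prod.snd) hωp hωi) := by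
      intro f hf
      have hz4 := z4 ⟨f, hf⟩
      have hall : ∀ B : Set S.X, MeasurableSet B →
          ∫ p in Prod.snd ⁻¹' B, (f p.1 - ∫ x, f x ∂S.μ) ∂(kk l z) = 0 := by
        have hint : Integrable (fun p : S.X × S.X => f p.1 - ∫ x, f x ∂S.μ) (kk l z) :=
          (hgi f).sub (integrable_const _)
        intro B hB
        induction B, hB using MeasurableSpace.induction_on_inter hgen hpi with
        | empty => simp
        | basic C hC => exact hz4 ⟨C, hC⟩
        | compl C hC ih =>
          have h5 := integral_add_compl (measurable_snd hC) hint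
          have h6 := hz4 ⟨Set.univ, hAlg.univ_mem⟩
          rw [Set.preimage_univ, Measure.restrict_univ] at h6
          rw [ih, h6, zero_add] at h5
          exact h5
        | iUnion C hd hC ih =>
          rw [Set.preimage_iUnion, integral_iUnion (fun i => measurable_snd (hC i))
            (fun i j hij => (hd hij).preimage _) hint.integrableOn]
          simp [ih]
      have hae : Pop hz f =ᵐ[(kk l z).map Prod.snd] fun _ => ∫ x, f x ∂S.μ := by
        refine Integrable.ae_eq_of_forall_setIntegral_eq _ _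
          ((Lp.memLp (Pop hz f)).integrable (by norm_num)) (integrable_const _) fun B hB _ => ?_
        have h5 : ∫ y in B, (Pop hz f) y ∂((kk l z).map Prod.snd) =
            ∫ p in Prod.snd ⁻¹' B, f p.1 ∂(kk l z) := by
          rw [← inner_JS_ind hz f hB, ← Pop_inner, real_inner_comm]
          exact (L2.inner_indicatorConstLp_one (𝕜 := ℝ) hB (measure_ne_top _ _) (Pop hz f)).symm
        have h6 := hall B hB
        rw [integral_sub (hgi f).integrableOn (integrable_const _).integrableOn,
          sub_eq_zero] at h6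
        rw [h5, h6, setIntegral_const, setIntegral_const,
          map_measureReal_apply measurable_snd hB]
      ext1
      refine hae.trans ?_
      refine EventuallyEq.symm ?_
      refine (Lp.coeFn_smul _ _).trans ?_
      have h7 : (one (withMeas S ((kk l z).map Prod.snd) hωp hωi)) =ᵐ[(kk l z).map Prod.snd]
          Set.indicator Set.univ (fun _ => (1 : ℝ)) := indicatorConstLp_coeFn
      filter_upwards [h7] with y hy
      rw [Pi.smul_apply, hy]
      simp
    have hPk : ∀ f ∈ kron S, Pop hz f = (∫ x, f x ∂S.μ) •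
        one (withMeas S ((kk l z).map Prod.snd) hωp hωi) := by
      intro f hf
      let L : Lp ℝ 2 S.μ →L[ℝ] Lp ℝ 2 ((kk l z).map Prod.snd) :=
        Pop hz - (innerSL ℝ (one S)).smulRight
          (one (withMeas S ((kk l z).map Prod.snd) hωp hωi))
      have hL : ∀ f, L f = Pop hz f - (∫ x, f x ∂S.μ) •
          one (withMeas S ((kk l z).map Prod.snd) hωp hωi) := by
        intro f
        simp only [L, sub_apply, ContinuousLinearMap.smulRight_apply,
          innerSL_apply_apply, inner_one]
      have hcl : IsClosed {f | L f = 0} := isClosed_eq L.continuous continuous_const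
      have h5 : closure t ⊆ {f | L f = 0} := by
        refine closure_minimal (fun f hf => ?_) hcl
        change L f = 0
        rw [hL, hPt f hf, sub_self]
      have h6 : L f = 0 := h5 (hkt hf)
      rw [hL] at h6
      exact sub_eq_zero.1 h6
    refine hS _ hErg (kk l z) hz fun f hf g hg => ?_
    rw [← bil hz, ← Pop_inner, hPk f hf, inner_smul_left, inner_one]
    rfl
  -- conclusion
  have hint : ∀ D : Set (S.X × S.X), MeasurableSet D → ∫⁻ z, kk l z D ∂l = l D := by
    intro D hD
    have := lint_kk (l := l) (F := D.indicator 1) (measurable_one.indicator hD)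
    simpa [lintegral_indicator_one hD] using this
  refine Measure.ext_prod fun {A B} hA hB => ?_
  rw [← hint _ (hA.prod hB), Measure.prod_prod]
  have h5 : ∫⁻ z, kk l z (A ×ˢ B) ∂l = ∫⁻ z, S.μ A * kk l z (Prod.snd ⁻¹' B) ∂l := by
    refine lintegral_congr_ae ?_
    filter_upwards [key] with z hz
    conv_lhs => rw [hz, Measure.prod_prod, Measure.map_apply measurable_snd hB]
  rw [h5, lintegral_const_mul' _ _ (measure_ne_top _ _), hint _ (measurable_snd hB),
    ← Measure.map_apply measurable_snd hB, h.snd]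

end Fibres

lemma orbit_eq (S : GSys G) (f : L2 S.μ) : orbit S f = Set.range fun γ : G => koop S γ f := by
  ext g
  simp only [orbit, Set.mem_ofPred_eq, Set.mem_range]
  refine exists_congr fun γ => ?_
  have h1 : koop S γ f =ᵐ[S.μ] fun x => f (γ • x) :=
    Lp.coeFn_compMeasurePreserving f (measurePreserving_smul γ S.μ)
  constructor
  · intro h
    exact Lp.ext (h1.trans h.symm)
  · intro h
    rw [← h]
    exact h1

lemma kronecker_eq (S : GSys G) : Kronecker S = (kron S : Set (Lp ℝ 2 S.μ)) := by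
  have h : {f | CompactClosure (orbit S f)} = {f | IsAP S f} := by
    ext f
    simp only [Set.mem_ofPred_eq, CompactClosure, IsAP, orbit_eq]
  unfold Kronecker
  rw [h]
  rfl

lemma quasiDisjoint_iff (S R : GSys G) : QuasiDisjoint S R ↔ QD S R := by
  have h1 : ∀ l : Measure (S.X × R.X), Joining S R l ↔ IsJoining S R l := fun l =>
    ⟨fun h => ⟨h.1, h.2.1, h.2.2⟩, fun h => ⟨h.fst, h.snd, h.inv⟩⟩
  have h2 : ∀ l : Measure (S.X × R.X), ProductOnKronecker S R l ↔ KronProd S R l := by
    intro l
    unfold ProductOnKronecker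
    rw [kronecker_eq, kronecker_eq]
    rfl
  unfold QuasiDisjoint QD
  refine forall_congr' fun l => ?_
  rw [h1, h2]

/-- **Main result.** For every countable group `G`, a `G` system is quasi-disjoint from every
ergodic `G` system if and only if it is quasi-disjoint from itself; moreover in this case it is
quasi-disjoint from every `G` system. -/
theorem result (G : Type) [Group G] [Countable G] (S : GSys G) :
    ((∀ R : GSys G, R.Ergodic → QuasiDisjoint S R) ↔ QuasiDisjoint S S) ∧
    (QuasiDisjoint S S ↔ ∀ R : GSys G, QuasiDisjoint S R) := by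
  simp only [quasiDisjoint_iff]
  exact ⟨⟨self_of_ergodic S, fun h R _ => qd_of_self S h R⟩, ⟨qd_of_self S, fun h => h S⟩⟩

end Pool.Agent.Results.MP_e732b6_an.QuasiDisjoint
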